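import Pool.Agent.Helper52.TC.Defs
import Pool.Agent.Helper38.ELP.Spec

/-! Statements of the modules for the lower bound on (min,+) circuits. -/

set_option autoImplicit false

namespace Pool.Agent.Helper52.TC

open Pool.Agent.Helper52.ETSP (edist)
open Pool.Agent.Helper38.ELP (Good)

/-! ### monomials of a circuit -/

/-- monomials `∑ a e * d e + c` -/
abbrev Mon (E : Type) := (E → ℕ) × ℝ

/-- value of a monomial -/
noncomputable def Mon.val {E : Type} [Fintype E] (z : Mon E) (d : E → ℝ) : ℝ :=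
  ∑ e, (z.1 e : ℝ) * d e + z.2

/-- the monomials of a gate; `S` the sets of monomials of the gates before it -/
def Gate.mons {E : Type} [DecidableEq E] (S : List (Set (Mon E))) : Gate E → Set (Mon E)
  | .input e => {(Pi.single e 1, 0)}
  | .const c => {(0, c)}
  | .least i j => S.getD i {0} ∪ S.getD j {0}
  | .plus i j => {z | ∃ x ∈ S.getD i {0}, ∃ y ∈ S.getD j {0}, z = x + y}

/-- the sets of monomials of all gates -/
def mrun {E : Type} [DecidableEq E] (C : List (Gate E)) : List (Set (Mon E)) :=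
  C.foldl (fun S g => S ++ [g.mons S]) []

/-- monomials of gate `k` -/
def mon {E : Type} [DecidableEq E] (C : List (Gate E)) (k : ℕ) : Set (Mon E) :=
  (mrun C).getD k {0}

/-- monomials of the output -/
def mout {E : Type} [DecidableEq E] (C : List (Gate E)) : Set (Mon E) := (mrun C).getLastD {0}

/-- (C1) the output is the least value of the monomials -/
def specC1 : Prop := ∀ (E : Type) [Fintype E] [DecidableEq E] (C : List (Gate E)),
  (mout C).Finite ∧ ∀ d : E → ℝ, IsLeast {r | ∃ z ∈ mout C, r = z.val d} (out d C)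

/-- weight of an exponent vector -/
def wt {E : Type} [Fintype E] (μ : E → ℕ) (a : E → ℕ) : ℕ := ∑ e, a e * μ e

/-- (C2) balanced decomposition of the monomials -/
def specC2 : Prop := ∀ (E : Type) [Fintype E] [DecidableEq E] (C : List (Gate E)) (μ : E → ℕ),
  (∀ e, μ e ≤ 1) → ∀ z ∈ mout C, 2 ≤ wt μ z.1 →
  ∃ k < C.length, ∃ x ∈ mon C k, ∃ y : Mon E, z = x + y ∧ (∀ x' ∈ mon C k, x' + y ∈ mout C) ∧
    wt μ z.1 < 3 * wt μ x.1 ∧ 3 * wt μ x.1 ≤ 2 * wt μ z.1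

/-! ### real placements -/

/-- Euclidean distance in the plane -/
noncomputable def rd2 (p q : ℝ × ℝ) : ℝ := Real.sqrt ((p.1 - q.1) ^ 2 + (p.2 - q.2) ^ 2)

/-- length of a tour through real points -/
noncomputable def rlen {m : ℕ} (q : Fin m → ℝ × ℝ) (τ : Equiv.Perm (Fin m)) : ℝ :=
  ∑ i, rd2 (q (τ i)) (q (τ (finRotate m i)))

/-- `q` is a real placement near the lattice placement `pos` -/
def Near {m : ℕ} (pos : Fin m → ℕ × ℕ) (ε : ℝ) (q : Fin m → ℝ × ℝ) : Prop :=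
  ∀ i, |(q i).1 - (pos i).1| < ε ∧ |(q i).2 - (pos i).2| < ε

/-- value of an exponent vector on a real placement -/
noncomputable def aval {m : ℕ} (a : Fin m × Fin m → ℕ) (q : Fin m → ℝ × ℝ) : ℝ :=
  ∑ e, (a e : ℝ) * rd2 (q e.1) (q e.2)

/-- the finite set `𝒮` of exponent vectors computes the optimal tour length near `pos` -/
structure Base {m : ℕ} (pos : Fin m → ℕ × ℕ) (ε : ℝ) (𝒮 : Set (Fin m × Fin m → ℕ)) : Prop where
  fin : 𝒮.Finite
  low : ∀ q, Near pos ε q → ∀ a ∈ 𝒮, ∃ τ, rlen q τ ≤ aval a q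
  upp : ∀ q, Near pos ε q → ∃ a ∈ 𝒮, ∀ τ, aval a q ≤ rlen q τ

/-- the points `m, m + 1, ...` are identified with the point `0` -/
def fold {n m : ℕ} (h : 0 < m) (i : Fin n) : Fin m := if hi : i.1 < m then ⟨i.1, hi⟩ else ⟨0, h⟩

/-- image of an exponent vector under `fold` -/
def push {n m : ℕ} (h : 0 < m) (a : Fin n × Fin n → ℕ) (e : Fin m × Fin m) : ℕ :=
  ∑ f, if (fold h f.1, fold h f.2) = e then a f else 0

/-- the placement `p₀` of `n` points: the extra points are put on the point `0` -/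
def place {n m : ℕ} (h : 0 < m) (pos : Fin m → ℕ × ℕ) (i : Fin n) : ℤ × ℤ :=
  (((pos (fold h i)).1 : ℤ), ((pos (fold h i)).2 : ℤ))

/-- (R) from the circuit to the exponent vectors (scaling and density of the rational placements,
shortcutting of the extra points) -/
def specR : Prop := ∀ (n m : ℕ) (h : 0 < m) (pos : Fin m → ℕ × ℕ) (ε : ℝ)
  (C : List (Gate (Fin n × Fin n))), m ≤ n → 0 < ε → SolvesNear C (place h pos) ε →
  Base pos ε {b | ∃ z ∈ mout C, b = push h z.1}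

/-! ### the local structure -/

/-- unit steps -/
def Un (p q : ℕ × ℕ) : Prop :=
  (q = (p.1 + 1, p.2)) ∨ (p = (q.1 + 1, q.2)) ∨ (q = (p.1, p.2 + 1)) ∨ (p = (q.1, q.2 + 1))

/-- (P) real perturbations with given first order changes of the unit distances -/
def specP : Prop := ∀ (m : ℕ) (pos : Fin m → ℕ × ℕ) (wH wV : ℕ → ℕ → ℝ), Function.Injective pos →
  ∃ K > 0, ∃ t₀ > 0, ∀ t : ℝ, 0 < t → t < t₀ → ∃ q : Fin m → ℝ × ℝ,
    (∀ i, |(q i).1 - (pos i).1| ≤ K * t ∧ |(q i).2 - (pos i).2| ≤ K * t) ∧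
    (∀ i j, pos j = ((pos i).1 + 1, (pos i).2) →
      1 + t * wH (pos i).1 (pos i).2 ≤ rd2 (q i) (q j) ∧
      rd2 (q i) (q j) ≤ 1 + t * wH (pos i).1 (pos i).2 + K * t ^ 2) ∧
    (∀ i j, pos j = ((pos i).1, (pos i).2 + 1) →
      1 + t * wV (pos i).1 (pos i).2 ≤ rd2 (q i) (q j) ∧
      rd2 (q i) (q j) ≤ 1 + t * wV (pos i).1 (pos i).2 + K * t ^ 2) ∧
    (∀ i j, i ≠ j → ¬ Un (pos i) (pos j) → 5 / 4 ≤ rd2 (q i) (q j))

/-- the tour makes unit steps only -/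
def UTour {m : ℕ} (pos : Fin m → ℕ × ℕ) (τ : Equiv.Perm (Fin m)) : Prop :=
  ∀ i, Un (pos (τ i)) (pos (τ (finRotate m i)))

/-- how often the tour goes from `u` to `v` or from `v` to `u` -/
def tc {m : ℕ} (τ : Equiv.Perm (Fin m)) (u v : Fin m) : ℕ :=
  (Finset.univ.filter fun i => (τ i = u ∧ τ (finRotate m i) = v) ∨
    (τ i = v ∧ τ (finRotate m i) = u)).card

/-- (L1) all tours with unit steps are among the exponent vectors -/
def specL1 : Prop := ∀ (m : ℕ) (pos : Fin m → ℕ × ℕ) (ε : ℝ) (𝒮 : Set (Fin m × Fin m → ℕ)),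
  3 ≤ m → Function.Injective pos → 0 < ε → Base pos ε 𝒮 → ∀ τ, UTour pos τ →
  ∃ a ∈ 𝒮, ∀ u v, u ≠ v → a (u, v) + a (v, u) = tc τ u v

/-- (L2) exponent vectors of degree `m` on the unit edges are tours with unit steps -/
def specL2 : Prop := ∀ (m : ℕ) (pos : Fin m → ℕ × ℕ) (ε : ℝ) (𝒮 : Set (Fin m × Fin m → ℕ)),
  3 ≤ m → Function.Injective pos → 0 < ε → Base pos ε 𝒮 → ∀ a ∈ 𝒮,
  (∀ u v, u ≠ v → a (u, v) ≠ 0 → Un (pos u) (pos v)) →
  (∑ e : Fin m × Fin m, if e.1 = e.2 then 0 else a e) = m →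
  ∃ τ, UTour pos τ ∧ ∀ u v, u ≠ v → a (u, v) + a (v, u) = tc τ u v

/-- (L3) crossing over: exponent vectors with the sum of two tours with unit steps are tours with
unit steps, and their sum is the same (from L2 and the inequality `low`) -/
def specL3 : Prop := ∀ (m : ℕ) (pos : Fin m → ℕ × ℕ) (ε : ℝ) (𝒮 : Set (Fin m × Fin m → ℕ)),
  3 ≤ m → Function.Injective pos → 0 < ε → Base pos ε 𝒮 → ∀ (τ₁ τ₂ : Equiv.Perm (Fin m)),
  UTour pos τ₁ → UTour pos τ₂ → ∀ a ∈ 𝒮, ∀ b ∈ 𝒮,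
  (∀ u v, u ≠ v → a (u, v) + a (v, u) + (b (u, v) + b (v, u)) = tc τ₁ u v + tc τ₂ u v) →
  ∃ τ₃ τ₄, UTour pos τ₃ ∧ UTour pos τ₄ ∧
    (∀ u v, u ≠ v → a (u, v) + a (v, u) = tc τ₃ u v) ∧
    ∀ u v, u ≠ v → b (u, v) + b (v, u) = tc τ₄ u v

/-! ### the array -/

/-- `bit c` of a configuration: is rail 2 of row `2 * c + 1` used -/
def rbit (uh : ℕ → ℕ → Bool) (c : ℕ) : Bool := uh 9 (10 * (2 * c + 1) + 2)

/-- mark number `j` of the bit `c`: a horizontal edge for `j ≤ 2 * c`, a vertical edge for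
`2 * c < j`; `r = true`: the edge used when the bit is one, `r = false`: when it is zero.
First component: is it horizontal; then the position of its left or lower end. -/
def mark (c j : ℕ) (r : Bool) : Bool × ℕ × ℕ :=
  if j ≤ 2 * c then (true, 10 * j + 9, 10 * (2 * c + 1) + (if r then 2 else 1))
  else (false, 10 * (2 * c + 1) + (if r then 2 else 1), 10 * j + 9)

/-- is the edge used -/
def us (uh uv : ℕ → ℕ → Bool) (e : Bool × ℕ × ℕ) : Bool :=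
  if e.1 then uh e.2.1 e.2.2 else uv e.2.1 e.2.2

/-- (A1) the marks show the bits -/
def specA1 : Prop := ∀ (M : ℕ) (uh uv : ℕ → ℕ → Bool), Good (2 * M + 2) uh uv →
  ∀ c j : ℕ, 1 ≤ c → c ≤ M → j ≤ 2 * M + 2 → ∀ r, us uh uv (mark c j r) = (rbit uh c == r)

/-- (A2) crossing over for the bits: from the product reading edges -/
def specA2 : Prop := ∀ (M : ℕ) (uh uv : Fin 4 → ℕ → ℕ → Bool),
  (∀ k, Good (2 * M + 2) (uh k) (uv k)) →
  (∀ x y, (uh 0 x y).toNat + (uh 1 x y).toNat = (uh 2 x y).toNat + (uh 3 x y).toNat) →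
  (∀ x y, (uv 0 x y).toNat + (uv 1 x y).toNat = (uv 2 x y).toNat + (uv 3 x y).toNat) →
  (∀ c, 1 ≤ c → c ≤ M → rbit (uh 2) c = rbit (uh 0) c ∧ rbit (uh 3) c = rbit (uh 1) c) ∨
  (∀ c, 1 ≤ c → c ≤ M → rbit (uh 2) c = rbit (uh 1) c ∧ rbit (uh 3) c = rbit (uh 0) c)

/-- positions of the vertices of the array -/
noncomputable def vpos (N : ℕ) (i : Fin (Pool.Agent.Helper38.ELP.Vset N).card) : ℕ × ℕ :=
  (((Pool.Agent.Helper38.ELP.Vset N).equivFin.symm i : Pool.Agent.Helper38.ELP.Vset N) : ℕ × ℕ)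

/-- horizontal edges used by a tour of the array -/
noncomputable def tH (N : ℕ) (τ : Equiv.Perm (Fin (Pool.Agent.Helper38.ELP.Vset N).card)) :
    ℕ → ℕ → Bool := Pool.Agent.Helper38.ELP.useH (Pool.Agent.Helper38.ELP.posN N) τ

/-- vertical edges used by a tour of the array -/
noncomputable def tV (N : ℕ) (τ : Equiv.Perm (Fin (Pool.Agent.Helper38.ELP.Vset N).card)) :
    ℕ → ℕ → Bool := Pool.Agent.Helper38.ELP.useV (Pool.Agent.Helper38.ELP.posN N) τ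

/-- (A3) for every list of bits there is a good tour (from D3, ..., D10 of ELP) -/
def specA3 : Prop := ∀ (M : ℕ) (β : ℕ → Bool), 1 ≤ M →
  ∃ τ, UTour (vpos (2 * M + 2)) τ ∧ Good (2 * M + 2) (tH _ τ) (tV _ τ) ∧
    ∀ c, 1 ≤ c → c ≤ M → rbit (tH _ τ) c = β c

/-- (A4) used edges and `tc` -/
def specA4 : Prop := ∀ (N : ℕ) (τ : Equiv.Perm (Fin (Pool.Agent.Helper38.ELP.Vset N).card)),
  3 ≤ (Pool.Agent.Helper38.ELP.Vset N).card → UTour (vpos N) τ → ∀ x y,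
  (tH N τ x y).toNat = (∑ u, ∑ v, if vpos N u = (x, y) ∧ vpos N v = (x + 1, y) then tc τ u v else 0) ∧
  (tV N τ x y).toNat = (∑ u, ∑ v, if vpos N u = (x, y) ∧ vpos N v = (x, y + 1) then tc τ u v else 0)

/-- (A5) crossing over keeps the forced edges and uses allowed edges only -/
def specA5 : Prop := ∀ (M : ℕ) (τ : Fin 4 → Equiv.Perm (Fin (Pool.Agent.Helper38.ELP.Vset (2 * M + 2)).card)),
  1 ≤ M → (∀ k, UTour (vpos (2 * M + 2)) (τ k)) →
  Good (2 * M + 2) (tH _ (τ 0)) (tV _ (τ 0)) → Good (2 * M + 2) (tH _ (τ 1)) (tV _ (τ 1)) →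
  (∀ u v, u ≠ v → tc (τ 0) u v + tc (τ 1) u v = tc (τ 2) u v + tc (τ 3) u v) →
  Good (2 * M + 2) (tH _ (τ 2)) (tV _ (τ 2)) ∧ Good (2 * M + 2) (tH _ (τ 3)) (tV _ (τ 3)) ∧
  (∀ x y, (tH _ (τ 0) x y).toNat + (tH _ (τ 1) x y).toNat =
    (tH _ (τ 2) x y).toNat + (tH _ (τ 3) x y).toNat) ∧
  (∀ x y, (tV _ (τ 0) x y).toNat + (tV _ (τ 1) x y).toNat =
    (tV _ (τ 2) x y).toNat + (tV _ (τ 3) x y).toNat)

/-- (K) counting -/
def specK : Prop := ∀ (M s : ℕ) (κ : (Fin M → Bool) → ℕ) (X Y : (Fin M → Bool) → Finset (Fin M)),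
  (∀ β, κ β < s) → (∀ β, M ≤ 3 * (X β).card) → (∀ β, M ≤ 3 * (Y β).card) →
  (∀ β γ, κ β = κ γ → (∀ c ∈ X γ, β c = γ c) ∨ (∀ c ∈ Y γ, β c = γ c)) →
  2 ^ M ≤ 2 * s * 2 ^ (M - (M + 2) / 3)

/-- (F) the final theorem -/
def specF : Prop := ∃ c : ℝ, 0 < c ∧ ∀ n : ℕ, ∃ p₀ : Fin n → ℤ × ℤ,
  (∀ i, 0 ≤ (p₀ i).1 ∧ ((p₀ i).1 : ℝ) ≤ √n ∧ 0 ≤ (p₀ i).2 ∧ ((p₀ i).2 : ℝ) ≤ √n) ∧
  ∀ (ε : ℝ) (C : List (Gate (Fin n × Fin n))), 0 < ε → SolvesNear C p₀ ε →
    (2 : ℝ) ^ (c * √n) ≤ C.length + 2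

end Pool.Agent.Helper52.TC
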