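import Mathlib
import Pool.Agent.Helper52.ETSP.Defs

/-! (min,+) circuits (pure dynamic programming) for EXACT EUCLIDEAN TSP. -/

set_option autoImplicit false

namespace Pool.Agent.Helper52.TC

open Pool.Agent.Helper52.ETSP (edist)

/-- Gates of a (min,+) circuit: an input variable, a real constant, the minimum or the sum of the
values of the gates number `i` and `j`. -/
inductive Gate (E : Type) : Type
  | input (e : E) : Gate E
  | const (c : ℝ) : Gate E
  | least (i j : ℕ) : Gate E
  | plus (i j : ℕ) : Gate E

/-- The value of a gate; `d` gives the values of the input variables, `vals` the values of the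
gates before it. -/
noncomputable def Gate.val {E : Type} (d : E → ℝ) (vals : List ℝ) : Gate E → ℝ
  | .input e => d e
  | .const c => c
  | .least i j => min (vals.getD i 0) (vals.getD j 0)
  | .plus i j => vals.getD i 0 + vals.getD j 0

/-- The values of all gates of the circuit `C` (a list of gates). -/
noncomputable def run {E : Type} (d : E → ℝ) (C : List (Gate E)) : List ℝ :=
  C.foldl (fun vals g => vals ++ [g.val d vals]) []

/-- The output of a circuit: the value of its last gate. -/
noncomputable def out {E : Type} (d : E → ℝ) (C : List (Gate E)) : ℝ := (run d C).getLastD 0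

/-- Exact Euclidean length of the closed tour which visits the points in the order
`σ 0, σ 1, ..., σ (n-1)` and returns to `σ 0`. -/
noncomputable def tourLen {n : ℕ} (p : Fin n → ℤ × ℤ) (σ : Equiv.Perm (Fin n)) : ℝ :=
  ∑ i, edist (p (σ i)) (p (σ (finRotate n i)))

/-- The circuit `C`, whose input variables are the distances of the pairs of points, computes the
exact optimal tour length for all placements `p` of `n` distinct points of `ℤ²` which are close to a
multiple of the placement `p₀`: for every `l ≥ 1` it is correct when every point `p i` differs from
`l * p₀ i` by at most `ε * l` in each coordinate. -/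
def SolvesNear {n : ℕ} (C : List (Gate (Fin n × Fin n))) (p₀ : Fin n → ℤ × ℤ) (ε : ℝ) : Prop :=
  ∀ (l : ℕ) (p : Fin n → ℤ × ℤ), 0 < l → Function.Injective p →
    (∀ i, |((p i).1 : ℝ) - l * (p₀ i).1| ≤ ε * l ∧ |((p i).2 : ℝ) - l * (p₀ i).2| ≤ ε * l) →
    IsLeast (Set.range (tourLen p)) (out (fun e => edist (p e.1) (p e.2)) C)

end Pool.Agent.Helper52.TC
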