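import Pool.Agent.Helper52.TC.Spec

/-! Assembly of the lower bound for (min,+) circuits. -/

set_option autoImplicit false

namespace Pool.Agent.Helper52.TC

open Pool.Agent.Helper38.ELP (Good Vset)

section marks

/-- the other end of an edge -/
def hi (e : Bool × ℕ × ℕ) : ℕ × ℕ := if e.1 then (e.2.1 + 1, e.2.2) else (e.2.1, e.2.2 + 1)

variable {m : ℕ}

/-- the pair `(u, v)` is the edge `e` -/
def Jo (pos : Fin m → ℕ × ℕ) (e : Bool × ℕ × ℕ) (u v : Fin m) : Prop :=
  (pos u = e.2 ∧ pos v = hi e) ∨ (pos u = hi e ∧ pos v = e.2)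

instance (pos : Fin m → ℕ × ℕ) (e : Bool × ℕ × ℕ) (u v : Fin m) : Decidable (Jo pos e u v) := by
  unfold Jo; infer_instance

/-- multiplicity of the edge `e` -/
def cE (pos : Fin m → ℕ × ℕ) (a : Fin m × Fin m → ℕ) (e : Bool × ℕ × ℕ) : ℕ :=
  ∑ f, if Jo pos e f.1 f.2 then a f else 0

lemma hi_ne (e : Bool × ℕ × ℕ) : hi e ≠ e.2 := by
  unfold hi
  intro h
  split_ifs at h
  · have := congrArg Prod.fst h; simp at this
  · have := congrArg Prod.snd h; simp at this

lemma cE_eq (pos : Fin m → ℕ × ℕ) (a : Fin m × Fin m → ℕ) (e : Bool × ℕ × ℕ) :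
    cE pos a e = ∑ u, ∑ v, if pos u = e.2 ∧ pos v = hi e then a (u, v) + a (v, u) else 0 := by
  unfold cE
  rw [Fintype.sum_prod_type]
  have h1 : ∀ u v, (if Jo pos e u v then a (u, v) else 0) =
      (if pos u = e.2 ∧ pos v = hi e then a (u, v) else 0) +
        (if pos u = hi e ∧ pos v = e.2 then a (u, v) else 0) := by
    intro u v
    unfold Jo
    by_cases h1 : pos u = e.2 ∧ pos v = hi e
    · have h2 : ¬ (pos u = hi e ∧ pos v = e.2) := by
        rintro ⟨h2, _⟩
        exact hi_ne e (h2.symm.trans h1.1)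
      rw [if_pos (Or.inl h1), if_pos h1, if_neg h2, add_zero]
    · by_cases h2 : pos u = hi e ∧ pos v = e.2
      · rw [if_pos (Or.inr h2), if_neg h1, if_pos h2, zero_add]
      · rw [if_neg (not_or.2 ⟨h1, h2⟩), if_neg h1, if_neg h2]
  simp only [h1, Finset.sum_add_distrib]
  have h2 : ∑ u, ∑ v, (if pos u = hi e ∧ pos v = e.2 then a (u, v) else 0) =
      ∑ u, ∑ v, (if pos u = e.2 ∧ pos v = hi e then a (v, u) else 0) := by
    rw [Finset.sum_comm]
    refine Finset.sum_congr rfl fun u _ => Finset.sum_congr rfl fun v _ => ?_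
    simp only [and_comm]
  rw [h2, ← Finset.sum_add_distrib]
  refine Finset.sum_congr rfl fun u _ => ?_
  rw [← Finset.sum_add_distrib]
  refine Finset.sum_congr rfl fun v _ => ?_
  split_ifs <;> rfl

lemma cE_add (pos : Fin m → ℕ × ℕ) (a b : Fin m × Fin m → ℕ) (e : Bool × ℕ × ℕ) :
    cE pos (a + b) e = cE pos a e + cE pos b e := by
  unfold cE
  rw [← Finset.sum_add_distrib]
  refine Finset.sum_congr rfl fun f _ => ?_
  split_ifs <;> simp

lemma push_add {n : ℕ} (h : 0 < m) (a b : Fin n × Fin n → ℕ) :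
    push h (a + b) = push h a + push h b := by
  funext e
  unfold push
  rw [Pi.add_apply, ← Finset.sum_add_distrib]
  refine Finset.sum_congr rfl fun f _ => ?_
  split_ifs <;> simp

/-- the index set of the marks -/
def Wset (M : ℕ) : Finset (Fin M × ℕ × Bool) :=
  Finset.univ ×ˢ Finset.range (2 * M + 3) ×ˢ Finset.univ

/-- weight of the input variables -/
def mu {n : ℕ} (h : 0 < m) (pos : Fin m → ℕ × ℕ) (M : ℕ) (f : Fin n × Fin n) : ℕ :=
  ∑ t ∈ Wset M, if Jo pos (mark (t.1.1 + 1) t.2.1 t.2.2) (fold h f.1) (fold h f.2) then 1 else 0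

lemma mark_inj {c j c' j' : ℕ} {r r' : Bool} (h : mark c j r = mark c' j' r') :
    c = c' ∧ j = j' ∧ r = r' := by
  unfold mark at h
  by_cases h1 : j ≤ 2 * c
  · by_cases h2 : j' ≤ 2 * c'
    · rw [if_pos h1, if_pos h2] at h
      obtain ⟨-, h3⟩ := Prod.ext_iff.1 h
      obtain ⟨h4, h5⟩ := Prod.ext_iff.1 h3
      simp only at h4 h5
      cases r <;> cases r' <;> simp only [Bool.false_eq_true, if_true, if_false] at h5
      · exact ⟨by omega, by omega, rfl⟩
      · exfalso; omega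
      · exfalso; omega
      · exact ⟨by omega, by omega, rfl⟩
    · rw [if_pos h1, if_neg h2] at h
      exact absurd (Prod.ext_iff.1 h).1 (by simp)
  · by_cases h2 : j' ≤ 2 * c'
    · rw [if_neg h1, if_pos h2] at h
      exact absurd (Prod.ext_iff.1 h).1 (by simp)
    · rw [if_neg h1, if_neg h2] at h
      obtain ⟨-, h3⟩ := Prod.ext_iff.1 h
      obtain ⟨h4, h5⟩ := Prod.ext_iff.1 h3
      simp only at h4 h5
      cases r <;> cases r' <;> simp only [Bool.false_eq_true, if_true, if_false] at h4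
      · exact ⟨by omega, by omega, rfl⟩
      · exfalso; omega
      · exfalso; omega
      · exact ⟨by omega, by omega, rfl⟩

lemma Jo_inj {pos : Fin m → ℕ × ℕ} {e e' : Bool × ℕ × ℕ} {u v : Fin m} (h : Jo pos e u v)
    (h' : Jo pos e' u v) : e = e' := by
  obtain ⟨b, x, y⟩ := e
  obtain ⟨b', x', y'⟩ := e'
  unfold Jo hi at h h'
  rcases h with ⟨h1, h2⟩ | ⟨h1, h2⟩ <;> rcases h' with ⟨h3, h4⟩ | ⟨h3, h4⟩ <;>
    rw [h1] at h3 <;> rw [h2] at h4 <;>
    cases b <;> cases b' <;>
    simp only [Bool.false_eq_true, if_true, if_false, Prod.mk.injEq] at h3 h4 <;>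
    first
    | (obtain ⟨rfl, rfl⟩ := h3; rfl)
    | (obtain ⟨rfl, rfl⟩ := h4; rfl)
    | (exfalso; omega)

lemma mu_le {n : ℕ} (h : 0 < m) (pos : Fin m → ℕ × ℕ) (M : ℕ) (f : Fin n × Fin n) :
    mu h pos M f ≤ 1 := by
  unfold mu
  rw [← Finset.card_filter, Finset.card_le_one]
  rintro ⟨c, j, r⟩ h1 ⟨c', j', r'⟩ h2
  rw [Finset.mem_filter] at h1 h2
  obtain ⟨h3, h4, h5⟩ := mark_inj (Jo_inj h1.2 h2.2)
  simp only at h3 h4 h5
  have h6 : c = c' := Fin.ext (by omega)
  rw [h6, h4, h5]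

lemma cE_push {n : ℕ} (h : 0 < m) (pos : Fin m → ℕ × ℕ) (a : Fin n × Fin n → ℕ)
    (e : Bool × ℕ × ℕ) :
    cE pos (push h a) e = ∑ f, if Jo pos e (fold h f.1) (fold h f.2) then a f else 0 := by
  unfold cE push
  have h1 : ∀ g : Fin m × Fin m, (if Jo pos e g.1 g.2 then
      ∑ f, (if (fold h f.1, fold h f.2) = g then a f else 0) else 0) =
      ∑ f, if (fold h f.1, fold h f.2) = g then (if Jo pos e (fold h f.1) (fold h f.2) then a f
        else 0) else 0 := by
    intro g
    split_ifs with hg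
    · refine Finset.sum_congr rfl fun f _ => ?_
      by_cases hf : (fold h f.1, fold h f.2) = g
      · rw [if_pos hf, if_pos hf, if_pos]
        rw [← hf] at hg
        exact hg
      · rw [if_neg hf, if_neg hf]
    · symm
      apply Finset.sum_eq_zero
      intro f _
      by_cases hf : (fold h f.1, fold h f.2) = g
      · rw [if_pos hf, if_neg]
        rw [← hf] at hg
        exact hg
      · rw [if_neg hf]
  simp only [h1]
  rw [Finset.sum_comm]
  refine Finset.sum_congr rfl fun f _ => ?_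
  rw [Finset.sum_ite_eq]
  simp

lemma wt_mu {n : ℕ} (h : 0 < m) (pos : Fin m → ℕ × ℕ) (M : ℕ) (a : Fin n × Fin n → ℕ) :
    wt (mu h pos M) a = ∑ t ∈ Wset M, cE pos (push h a) (mark (t.1.1 + 1) t.2.1 t.2.2) := by
  unfold wt mu
  simp only [Finset.mul_sum, cE_push]
  rw [Finset.sum_comm]
  refine Finset.sum_congr rfl fun t _ => Finset.sum_congr rfl fun f _ => ?_
  split_ifs <;> simp

lemma sum_Wset (M : ℕ) (f : Fin M → ℕ → Bool → ℕ) :
    ∑ t ∈ Wset M, f t.1 t.2.1 t.2.2 = ∑ c, ∑ j ∈ Finset.range (2 * M + 3), ∑ r, f c j r := by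
  unfold Wset
  rw [Finset.sum_product]
  refine Finset.sum_congr rfl fun c _ => ?_
  rw [Finset.sum_product]

end marks

section core

lemma fin4 {α : Type} {P : α → Prop} {a b c d : α} (ha : P a) (hb : P b) (hc : P c) (hd : P d) :
    ∀ k : Fin 4, P (![a, b, c, d] k) := by
  intro k
  fin_cases k <;> assumption

lemma fin4' {α β : Type} {P : α → β → Prop} {a b c d : α} {a' b' c' d' : β} (ha : P a a')
    (hb : P b b') (hc : P c c') (hd : P d d') :
    ∀ k : Fin 4, P (![a, b, c, d] k) (![a', b', c', d'] k) := by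
  intro k
  fin_cases k <;> assumption

lemma vpos_injective (N : ℕ) : Function.Injective (vpos N) := by
  intro i j h
  exact (Vset N).equivFin.symm.injective (Subtype.ext h)

lemma cE_tc (hA4 : specA4) {N : ℕ} (hm : 3 ≤ (Vset N).card)
    {τ : Equiv.Perm (Fin (Vset N).card)} (hτ : UTour (vpos N) τ)
    {a : Fin (Vset N).card × Fin (Vset N).card → ℕ}
    (ha : ∀ u v, u ≠ v → a (u, v) + a (v, u) = tc τ u v) (e : Bool × ℕ × ℕ) :
    cE (vpos N) a e = (us (tH N τ) (tV N τ) e).toNat := by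
  rw [cE_eq]
  have h1 : ∀ u v, (if vpos N u = e.2 ∧ vpos N v = hi e then a (u, v) + a (v, u) else 0) =
      if vpos N u = e.2 ∧ vpos N v = hi e then tc τ u v else 0 := by
    intro u v
    split_ifs with h
    · apply ha
      rintro rfl
      exact hi_ne e (h.2.symm.trans h.1)
    · rfl
  simp only [h1]
  obtain ⟨b, x, y⟩ := e
  have := hA4 N τ hm hτ x y
  cases b
  · exact this.2.symm
  · exact this.1.symm

lemma card_bound {m n : ℕ} (h : 0 < m) (pos : Fin m → ℕ × ℕ) (M : ℕ) (w z : Fin n × Fin n → ℕ)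
    (hle : ∀ e, cE pos (push h w) e ≤ cE pos (push h z) e)
    (hb : ∀ (c : Fin M) (j : ℕ), j ∈ Finset.range (2 * M + 3) →
      ∑ r, cE pos (push h z) (mark (c.1 + 1) j r) = 1)
    (S : Finset (Fin M)) (hS : ∀ c, c ∉ S → ∀ j ∈ Finset.range (2 * M + 3), ∀ r,
      cE pos (push h w) (mark (c.1 + 1) j r) = 0) :
    wt (mu h pos M) w ≤ S.card * (2 * M + 3) := by
  rw [wt_mu, sum_Wset M (fun c j r => cE pos (push h w) (mark (c.1 + 1) j r))]
  have h1 : ∀ c : Fin M, ∑ j ∈ Finset.range (2 * M + 3), ∑ r,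
      cE pos (push h w) (mark (c.1 + 1) j r) ≤ if c ∈ S then (2 * M + 3) else 0 := by
    intro c
    by_cases hc : c ∈ S
    · rw [if_pos hc]
      have h2 : ∀ j ∈ Finset.range (2 * M + 3),
          ∑ r, cE pos (push h w) (mark (c.1 + 1) j r) ≤ 1 := by
        intro j hj
        calc ∑ r, cE pos (push h w) (mark (c.1 + 1) j r)
            ≤ ∑ r, cE pos (push h z) (mark (c.1 + 1) j r) :=
              Finset.sum_le_sum fun r _ => hle _
          _ = 1 := hb c j hj
      refine (Finset.sum_le_sum h2).trans ?_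
      rw [Finset.sum_const, Finset.card_range, smul_eq_mul, mul_one]
    · rw [if_neg hc, Nat.le_zero]
      exact Finset.sum_eq_zero fun j hj => Finset.sum_eq_zero fun r _ => hS c hc j hj r
  refine (Finset.sum_le_sum fun c _ => h1 c).trans ?_
  rw [Finset.sum_ite_mem, Finset.univ_inter, Finset.sum_const, smul_eq_mul]

theorem core (hC2 : specC2) (hR : specR) (hL1 : specL1) (hL3 : specL3) (hA1 : specA1)
    (hA2 : specA2) (hA3 : specA3) (hA4 : specA4) (hA5 : specA5) (hK : specK)
    (M n : ℕ) (hM : 1 ≤ M) (hm : 3 ≤ (Vset (2 * M + 2)).card) (hmn : (Vset (2 * M + 2)).card ≤ n)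
    (h : 0 < (Vset (2 * M + 2)).card) (ε : ℝ) (hε : 0 < ε) (C : List (Gate (Fin n × Fin n)))
    (hsol : SolvesNear C (place h (vpos (2 * M + 2))) ε) :
    2 ^ M ≤ 2 * C.length * 2 ^ (M - (M + 2) / 3) := by
  have B := hR n _ h (vpos (2 * M + 2)) ε C hmn hε hsol
  set pos := vpos (2 * M + 2) with hpos
  have hinj : Function.Injective pos := vpos_injective _
  -- tours
  have hτ : ∀ β : Fin M → Bool, ∃ τ, UTour pos τ ∧ Good (2 * M + 2) (tH _ τ) (tV _ τ) ∧
      ∀ c : Fin M, rbit (tH _ τ) (c.1 + 1) = β c := by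
    intro β
    obtain ⟨τ, h1, h2, h3⟩ := hA3 M (fun c => if hc : 1 ≤ c ∧ c ≤ M then β ⟨c - 1, by omega⟩
      else false) hM
    refine ⟨τ, h1, h2, fun c => ?_⟩
    rw [h3 (c.1 + 1) (by omega) (by omega), dif_pos ⟨by omega, by omega⟩]
    rfl
  choose τ hτ1 hτ2 hτ3 using hτ
  have hz : ∀ β : Fin M → Bool, ∃ z ∈ mout C,
      ∀ u v, u ≠ v → push h z.1 (u, v) + push h z.1 (v, u) = tc (τ β) u v := by
    intro β
    obtain ⟨a, ⟨z, hz, rfl⟩, ha⟩ := hL1 _ pos ε _ hm hinj hε B (τ β) (hτ1 β)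
    exact ⟨z, hz, ha⟩
  choose z hz1 hz2 using hz
  have hcE : ∀ β e, cE pos (push h (z β).1) e = (us (tH _ (τ β)) (tV _ (τ β)) e).toNat :=
    fun β e => cE_tc hA4 hm (hτ1 β) (hz2 β) e
  have hus : ∀ (β : Fin M → Bool) (c : Fin M) (j : ℕ) (r : Bool), j ∈ Finset.range (2 * M + 3) →
      us (tH _ (τ β)) (tV _ (τ β)) (mark (c.1 + 1) j r) = (β c == r) := by
    intro β c j r hj
    rw [Finset.mem_range] at hj
    rw [hA1 M _ _ (hτ2 β) (c.1 + 1) j (by omega) (by omega) (by omega) r, hτ3]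
  have hbits : ∀ (β : Fin M → Bool) (c : Fin M) (j : ℕ), j ∈ Finset.range (2 * M + 3) →
      ∑ r, cE pos (push h (z β).1) (mark (c.1 + 1) j r) = 1 := by
    intro β c j hj
    simp only [hcE, Fintype.sum_bool, hus β c j _ hj]
    cases β c <;> rfl
  have hwt : ∀ β, wt (mu h pos M) (z β).1 = M * (2 * M + 3) := by
    intro β
    rw [wt_mu, sum_Wset M (fun c j r => cE pos (push h (z β).1) (mark (c.1 + 1) j r))]
    rw [Finset.sum_congr rfl fun c _ => Finset.sum_congr rfl fun j hj => hbits β c j hj]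
    simp
  -- decomposition
  have hd : ∀ β : Fin M → Bool, ∃ k < C.length, ∃ x ∈ mon C k, ∃ y : Mon (Fin n × Fin n),
      z β = x + y ∧ (∀ x' ∈ mon C k, x' + y ∈ mout C) ∧
      wt (mu h pos M) (z β).1 < 3 * wt (mu h pos M) x.1 ∧
      3 * wt (mu h pos M) x.1 ≤ 2 * wt (mu h pos M) (z β).1 := by
    intro β
    refine hC2 _ C (mu h pos M) (mu_le h pos M) (z β) (hz1 β) ?_
    rw [hwt]
    nlinarith
  choose κ hκ x hx y hxy hctx hlo hup using hd
  -- the bits shown by a part of the monomial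
  let Sh : (Mon (Fin n × Fin n)) → Finset (Fin M) := fun w => by
    classical
    exact Finset.univ.filter (fun c : Fin M => ∃ j ∈ Finset.range (2 * M + 3), ∃ r,
      1 ≤ cE pos (push h w.1) (mark (c.1 + 1) j r))
  have hSh : ∀ w (c : Fin M), c ∈ Sh w ↔ ∃ j ∈ Finset.range (2 * M + 3), ∃ r,
      1 ≤ cE pos (push h w.1) (mark (c.1 + 1) j r) := by
    intro w c
    simp [Sh]
  have hle : ∀ (β : Fin M → Bool) (w w' : Mon (Fin n × Fin n)), z β = w + w' → ∀ e,
      cE pos (push h w.1) e ≤ cE pos (push h (z β).1) e := by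
    intro β w w' hw e
    rw [hw, Prod.fst_add, push_add, cE_add]
    omega
  have hcard : ∀ (β : Fin M → Bool) (w w' : Mon (Fin n × Fin n)), z β = w + w' →
      wt (mu h pos M) w.1 ≤ (Sh w).card * (2 * M + 3) := by
    intro β w w' hw
    refine card_bound h pos M w.1 (z β).1 (hle β w w' hw) (hbits β) (Sh w) ?_
    intro c hc j hj r
    by_contra h0
    exact hc ((hSh w c).2 ⟨j, hj, r, Nat.one_le_iff_ne_zero.2 h0⟩)
  have hwadd : ∀ β, wt (mu h pos M) (z β).1 = wt (mu h pos M) (x β).1 + wt (mu h pos M) (y β).1 := by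
    intro β
    rw [hxy β, Prod.fst_add]
    unfold wt
    rw [← Finset.sum_add_distrib]
    refine Finset.sum_congr rfl fun f _ => ?_
    rw [Pi.add_apply, add_mul]
  refine hK M C.length κ (fun β => Sh (x β)) (fun β => Sh (y β)) hκ ?_ ?_ ?_
  · intro β
    have h1 := hcard β (x β) (y β) (hxy β)
    have h2 := hlo β
    rw [hwt] at h2
    have h3 : M * (2 * M + 3) < 3 * (Sh (x β)).card * (2 * M + 3) := by
      rw [mul_assoc]; omega
    exact (Nat.lt_of_mul_lt_mul_right h3).le
  · intro β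
    have h1 := hcard β (y β) (x β) (by rw [add_comm (y β) (x β)]; exact hxy β)
    have h2 := hup β
    have h4 := hwadd β
    rw [hwt] at h2 h4
    have h3 : M * (2 * M + 3) ≤ 3 * (Sh (y β)).card * (2 * M + 3) := by
      rw [mul_assoc]; omega
    exact Nat.le_of_mul_le_mul_right h3 (by omega)
  · intro β γ hκe
    have hxβ : x β ∈ mon C (κ γ) := by rw [← hκe]; exact hx β
    have hxγ : x γ ∈ mon C (κ β) := by rw [hκe]; exact hx γ
    have h3 : x β + y γ ∈ mout C := hctx γ _ hxβ
    have h4 : x γ + y β ∈ mout C := hctx β _ hxγ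
    obtain ⟨τ₃, τ₄, u3, u4, e3, e4⟩ := hL3 _ pos ε _ hm hinj hε B (τ β) (τ γ) (hτ1 β) (hτ1 γ)
      (push h (x β + y γ).1) ⟨_, h3, rfl⟩ (push h (x γ + y β).1) ⟨_, h4, rfl⟩ (by
        intro u v huv
        have e1 := hz2 β u v huv
        have e2 := hz2 γ u v huv
        rw [hxy β] at e1
        rw [hxy γ] at e2
        simp only [Prod.fst_add, push_add, Pi.add_apply] at e1 e2 ⊢
        omega)
    have hsum : ∀ u v, u ≠ v → tc (τ β) u v + tc (τ γ) u v = tc τ₃ u v + tc τ₄ u v := by
      intro u v huv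
      have e1 := hz2 β u v huv
      have e2 := hz2 γ u v huv
      have e5 := e3 u v huv
      have e6 := e4 u v huv
      rw [hxy β] at e1
      rw [hxy γ] at e2
      simp only [Prod.fst_add, push_add, Pi.add_apply] at e1 e2 e5 e6
      omega
    have hall := hA5 M ![τ β, τ γ, τ₃, τ₄] hM (fin4 (hτ1 β) (hτ1 γ) u3 u4) (hτ2 β) (hτ2 γ) hsum
    obtain ⟨g3, g4, sH, sV⟩ := hall
    have hb := hA2 M ![tH _ (τ β), tH _ (τ γ), tH _ τ₃, tH _ τ₄]
      ![tV _ (τ β), tV _ (τ γ), tV _ τ₃, tV _ τ₄]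
      (fin4' (P := Good (2 * M + 2)) (hτ2 β) (hτ2 γ) g3 g4) sH sV
    have hus' : ∀ (σ : Equiv.Perm (Fin (Vset (2 * M + 2)).card)),
        Good (2 * M + 2) (tH _ σ) (tV _ σ) → ∀ (c : Fin M) (j : ℕ) (r : Bool),
        j ∈ Finset.range (2 * M + 3) →
        us (tH _ σ) (tV _ σ) (mark (c.1 + 1) j r) = (rbit (tH _ σ) (c.1 + 1) == r) := by
      intro σ hσ c j r hj
      rw [Finset.mem_range] at hj
      exact hA1 M _ _ hσ (c.1 + 1) j (by omega) (by omega) (by omega) r
    -- common step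
    have step : ∀ (σ : Equiv.Perm (Fin (Vset (2 * M + 2)).card)) (w w' w'' : Mon (Fin n × Fin n)),
        UTour pos σ → Good (2 * M + 2) (tH _ σ) (tV _ σ) →
        (∀ u v, u ≠ v → push h (w + w').1 (u, v) + push h (w + w').1 (v, u) = tc σ u v) →
        (∀ c : Fin M, rbit (tH _ σ) (c.1 + 1) = β c) → z γ = w + w'' → ∀ c ∈ Sh w, β c = γ c := by
      intro σ w w' w'' hσ1 hσ2 hσ3 hσ4 hzw c hc
      obtain ⟨j, hj, r, hr⟩ := (hSh w c).1 hc
      have c1 : cE pos (push h (w + w').1) (mark (c.1 + 1) j r) =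
          (us (tH _ σ) (tV _ σ) (mark (c.1 + 1) j r)).toNat := cE_tc hA4 hm hσ1 hσ3 _
      rw [hus' σ hσ2 c j r hj, hσ4, Prod.fst_add, push_add, cE_add] at c1
      have c2 := hcE γ (mark (c.1 + 1) j r)
      rw [hus γ c j r hj, hzw, Prod.fst_add, push_add, cE_add] at c2
      have d1 : (β c == r) = true := by
        by_contra hne
        rw [Bool.not_eq_true] at hne
        rw [hne] at c1
        simp only [Bool.toNat_false] at c1
        omega
      have d2 : (γ c == r) = true := by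
        by_contra hne
        rw [Bool.not_eq_true] at hne
        rw [hne] at c2
        simp only [Bool.toNat_false] at c2
        omega
      rw [beq_iff_eq] at d1 d2
      rw [d1, d2]
    rcases hb with hb | hb
    · right
      refine step τ₃ (y γ) (x β) (x γ) u3 g3 (by rw [add_comm (y γ) (x β)]; exact e3) ?_
        (by rw [add_comm (y γ) (x γ)]; exact hxy γ)
      intro c
      have := (hb (c.1 + 1) (by omega) (by omega)).1
      exact this.trans (hτ3 β c)
    · left
      refine step τ₄ (x γ) (y β) (y γ) u4 g4 e4 ?_ (hxy γ)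
      intro c
      have := (hb (c.1 + 1) (by omega) (by omega)).2
      exact this.trans (hτ3 β c)

end core

theorem F (hC2 : specC2) (hR : specR) (hL1 : specL1) (hL3 : specL3) (hA1 : specA1)
    (hA2 : specA2) (hA3 : specA3) (hA4 : specA4) (hA5 : specA5) (hK : specK)
    (h3 : ∀ M, 1 ≤ M → 3 ≤ (Vset (2 * M + 2)).card) : specF := by
  refine ⟨1 / 200, by norm_num, fun n => ?_⟩
  by_cases hn : n < 3600
  · refine ⟨fun _ => (0, 0), fun i => by simp, fun ε C _ _ => ?_⟩
    have h1 : (1 / 200 : ℝ) * √n ≤ 1 := by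
      have : √(n : ℝ) ≤ 60 := by
        rw [Real.sqrt_le_iff]
        refine ⟨by norm_num, ?_⟩
        have : (n : ℝ) < 3600 := by exact_mod_cast hn
        linarith
      linarith
    have h2 : (2 : ℝ) ^ ((1 / 200 : ℝ) * √n) ≤ 2 ^ (1 : ℝ) :=
      Real.rpow_le_rpow_of_exponent_le (by norm_num) h1
    rw [Real.rpow_one] at h2
    have : (0 : ℝ) ≤ C.length := by positivity
    linarith
  · push Not at hn
    set k := Nat.sqrt (n / 400) with hk
    have hk1 : k * k ≤ n / 400 := Nat.sqrt_le _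
    have hk2 : n / 400 < (k + 1) * (k + 1) := Nat.lt_succ_sqrt _
    have hk3 : 3 ≤ k := by
      rw [hk, Nat.le_sqrt]
      omega
    clear_value k
    obtain ⟨M, rfl⟩ : ∃ M, k = M + 2 := ⟨k - 2, by omega⟩
    have hM : 1 ≤ M := by omega
    have hle : 400 * (M + 2) ^ 2 ≤ n := by
      have := Nat.mul_le_of_le_div 400 _ _ hk1
      nlinarith
    have hcard : (Vset (2 * M + 2)).card ≤ 400 * (M + 2) ^ 2 := by
      unfold Vset
      refine (Finset.card_filter_le _ _).trans ?_
      rw [Finset.card_product, Finset.card_range]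
      nlinarith
    have h0 : 0 < (Vset (2 * M + 2)).card := by have := h3 M hM; omega
    have hsq : (20 * (M + 2) : ℝ) ≤ √n := by
      apply Real.le_sqrt_of_sq_le
      have : ((400 * (M + 2) ^ 2 : ℕ) : ℝ) ≤ n := by exact_mod_cast hle
      push_cast at this
      nlinarith
    have hpos : ∀ i, (vpos (2 * M + 2) i).1 < 20 * (M + 2) ∧ (vpos (2 * M + 2) i).2 < 20 * (M + 2) := by
      intro i
      have := ((Vset (2 * M + 2)).equivFin.symm i).2
      unfold Vset at this
      rw [Finset.mem_filter, Finset.mem_product, Finset.mem_range, Finset.mem_range] at this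
      unfold vpos
      constructor
      · have h := this.1.1
        calc _ < 10 * (2 * M + 2 + 2) := h
          _ = 20 * (M + 2) := by ring
      · have h := this.1.2
        calc _ < 10 * (2 * M + 2 + 2) := h
          _ = 20 * (M + 2) := by ring
    refine ⟨place h0 (vpos (2 * M + 2)), ?_, ?_⟩
    · intro i
      have h1 := (hpos (fold h0 i)).1
      have h2 := (hpos (fold h0 i)).2
      unfold place
      refine ⟨by positivity, ?_, by positivity, ?_⟩
      · have : (((vpos (2 * M + 2) (fold h0 i)).1 : ℕ) : ℝ) ≤ ((20 * (M + 2) : ℕ) : ℝ) := by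
          exact_mod_cast h1.le
        push_cast at this ⊢
        linarith
      · have : (((vpos (2 * M + 2) (fold h0 i)).2 : ℕ) : ℝ) ≤ ((20 * (M + 2) : ℕ) : ℝ) := by
          exact_mod_cast h2.le
        push_cast at this ⊢
        linarith
    · intro ε C hε hsol
      have hc := core hC2 hR hL1 hL3 hA1 hA2 hA3 hA4 hA5 hK M n hM (h3 M hM) (hcard.trans hle) h0 ε
        hε C hsol
      have hlt : √(n : ℝ) < 20 * (M + 3) := by
        rw [Real.sqrt_lt' (by positivity)]
        have h5 : n < 400 * ((M + 2 + 1) * (M + 2 + 1)) := by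
          have := (Nat.div_lt_iff_lt_mul (by norm_num : 0 < 400)).1 hk2
          linarith
        have : (n : ℝ) < ((400 * ((M + 2 + 1) * (M + 2 + 1)) : ℕ) : ℝ) := by exact_mod_cast h5
        push_cast at this
        nlinarith
      by_cases hM6 : M < 6
      · have h1 : (1 / 200 : ℝ) * √n ≤ 1 := by
          have : (M : ℝ) < 6 := by exact_mod_cast hM6
          linarith
        have h2 : (2 : ℝ) ^ ((1 / 200 : ℝ) * √n) ≤ 2 ^ (1 : ℝ) :=
          Real.rpow_le_rpow_of_exponent_le (by norm_num) h1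
        rw [Real.rpow_one] at h2
        have : (0 : ℝ) ≤ C.length := by positivity
        linarith
      · push Not at hM6
        set r := (M + 2) / 3 with hr
        have hrM : r ≤ M := by omega
        have h7 : 2 ^ r ≤ 2 * C.length := by
          have h8 : 2 ^ M = 2 ^ r * 2 ^ (M - r) := by
            rw [← pow_add]; congr 1; omega
          rw [h8] at hc
          exact Nat.le_of_mul_le_mul_right hc (by positivity)
        obtain ⟨r', hr'⟩ : ∃ r', r = r' + 1 := ⟨r - 1, by omega⟩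
        rw [hr', pow_succ] at h7
        have h9 : 2 ^ r' ≤ C.length := by omega
        have h10 : (1 / 200 : ℝ) * √n ≤ (r' : ℝ) := by
          have h11 : M ≤ 3 * (r' + 1) := by omega
          have h12 : (M : ℝ) ≤ 3 * (r' + 1) := by exact_mod_cast h11
          have h13 : (6 : ℝ) ≤ M := by exact_mod_cast hM6
          linarith
        have h14 : (2 : ℝ) ^ ((1 / 200 : ℝ) * √n) ≤ 2 ^ (r' : ℝ) :=
          Real.rpow_le_rpow_of_exponent_le (by norm_num) h10
        rw [Real.rpow_natCast] at h14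
        have h15 : (2 : ℝ) ^ r' ≤ C.length := by exact_mod_cast h9
        linarith

end Pool.Agent.Helper52.TC
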