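import Pool.Agent.Helper52.TC.F
import Pool.Agent.Helper37.TC.L1
import Pool.Agent.Helper38.TC.A1
import Pool.Agent.Helper38.TC.A3
import Pool.Agent.Helper38.ELP.All
import Pool.Agent.Helper56.TC.P
import Pool.Agent.Helper56.TC.R
import Pool.Agent.Helper74.TC.A5
import Pool.Agent.Helper74.TC.K
import Pool.Agent.Helper81.TC.L2
import Pool.Agent.Helper86.TC.C1
import Pool.Agent.Helper86.TC.C2

/-! The lower bound for (min,+) circuits, all modules together. -/

set_option autoImplicit false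

namespace Pool.Agent.Helper52.TC

open Pool.Agent.Helper38.ELP (Vset pres rd ty)

theorem core' (M n : ℕ) (hM : 1 ≤ M) (hmn : (Vset (2 * M + 2)).card ≤ n)
    (h : 0 < (Vset (2 * M + 2)).card) (ε : ℝ) (hε : 0 < ε) (C : List (Gate (Fin n × Fin n)))
    (hsol : SolvesNear C (place h (vpos (2 * M + 2))) ε) :
    2 ^ M ≤ 2 * C.length * 2 ^ (M - (M + 2) / 3) :=
  core Pool.Agent.Helper86.TC.C2 (Pool.Agent.Helper56.TC.R Pool.Agent.Helper86.TC.C1)
    (Pool.Agent.Helper37.TC.L1 Pool.Agent.Helper56.TC.P)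
    (Pool.Agent.Helper81.TC.L3 (Pool.Agent.Helper81.TC.L2 Pool.Agent.Helper56.TC.P))
    (Pool.Agent.Helper38.TC.A1 Pool.Agent.Helper9.ELP.d3 Pool.Agent.Helper78.ELP.d4
      Pool.Agent.Helper38.ELP.D5)
    (Pool.Agent.Helper38.TC.A2 Pool.Agent.Helper38.ELP.D6)
    (Pool.Agent.Helper38.TC.A3 Pool.Agent.Helper68.ELP.d1 Pool.Agent.Helper68.ELP.d8
      Pool.Agent.Helper38.ELP.D10)
    Pool.Agent.Helper38.TC.A4
    (Pool.Agent.Helper74.TC.A5 Pool.Agent.Helper38.TC.A4) Pool.Agent.Helper74.TC.K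
    M n hM (Pool.Agent.Helper38.ELP.card_ge M) hmn h ε hε C hsol

theorem sq_le_card (M : ℕ) : (M + 1) ^ 2 ≤ (Vset (2 * M + 2)).card := by
  have h1 : ((Finset.range (M + 1) ×ˢ Finset.range (M + 1)).image
      (fun p : ℕ × ℕ => (10 * (p.1 + 1) + 1, 10 * (p.2 + M + 2) + 9))) ⊆ Vset (2 * M + 2) := by
    intro q hq
    rw [Finset.mem_image] at hq
    obtain ⟨⟨i, j⟩, hp, rfl⟩ := hq
    rw [Finset.mem_product, Finset.mem_range, Finset.mem_range] at hp
    simp only at hp
    unfold Vset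
    rw [Finset.mem_filter, Finset.mem_product, Finset.mem_range, Finset.mem_range]
    refine ⟨⟨by simp only; omega, by simp only; omega⟩, ?_⟩
    have e1 : (10 * (i + 1) + 1) / 10 = i + 1 := by omega
    have e2 : (10 * (j + M + 2) + 9) / 10 = j + M + 2 := by omega
    have e3 : (10 * (i + 1) + 1) % 10 = 1 := by omega
    have e4 : (10 * (j + M + 2) + 9) % 10 = 9 := by omega
    unfold pres rd
    simp only
    rw [e1, e2, e3, e4, Pool.Agent.Helper78.ELP.ty_X (by omega) (by omega) (by omega)]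
    decide +kernel
  have h2 := Finset.card_le_card h1
  rw [Finset.card_image_of_injective, Finset.card_product, Finset.card_range] at h2
  · rw [sq]; exact h2
  · rintro ⟨a, b⟩ ⟨c, d⟩ h
    simp only [Prod.mk.injEq] at h ⊢
    omega

theorem place_injective {m : ℕ} (h : 0 < m) (pos : Fin m → ℕ × ℕ) (hp : Function.Injective pos) :
    Function.Injective (place (n := m) h pos) := by
  intro i j hij
  have h1 : pos (fold h i) = pos (fold h j) := by
    unfold place at hij
    simp only [Prod.mk.injEq, Nat.cast_inj] at hij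
    exact Prod.ext hij.1 hij.2
  have h2 := hp h1
  unfold fold at h2
  rw [dif_pos i.2, dif_pos j.2] at h2
  exact h2

theorem final : ∃ c : ℝ, 0 < c ∧ ∀ N : ℕ, 1 ≤ N → ∃ n : ℕ, N ≤ n ∧ n ≤ 3600 * N ∧
    ∃ p₀ : Fin n → ℤ × ℤ, Function.Injective p₀ ∧
    (∀ i, 0 ≤ (p₀ i).1 ∧ ((p₀ i).1 : ℝ) ≤ 40 * √n ∧ 0 ≤ (p₀ i).2 ∧ ((p₀ i).2 : ℝ) ≤ 40 * √n) ∧
    ∀ (ε : ℝ) (C : List (Gate (Fin n × Fin n))), 0 < ε → SolvesNear C p₀ ε →
      (2 : ℝ) ^ (c * √n) ≤ C.length + 2 := by
  refine ⟨1 / 200, by norm_num, fun N hN => ?_⟩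
  set M := Nat.sqrt N with hMdef
  have hs1 : M * M ≤ N := Nat.sqrt_le _
  have hs2 : N < (M + 1) * (M + 1) := Nat.lt_succ_sqrt _
  have hM : 1 ≤ M := by
    rw [hMdef, Nat.le_sqrt]; omega
  clear_value M
  set n := (Vset (2 * M + 2)).card with hn
  have hlo : (M + 1) ^ 2 ≤ n := sq_le_card M
  have hcard : n ≤ 400 * (M + 2) ^ 2 := Pool.Agent.Helper38.ELP.card_le M
  have h0 : 0 < n := by
    have : 0 < (M + 1) ^ 2 := by positivity
    omega
  have hsq : ((M : ℝ) + 1) ≤ √n := by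
    apply Real.le_sqrt_of_sq_le
    have : (((M + 1) ^ 2 : ℕ) : ℝ) ≤ n := by exact_mod_cast hlo
    push_cast at this
    exact this
  have hpos : ∀ i, (vpos (2 * M + 2) i).1 < 20 * (M + 2) ∧ (vpos (2 * M + 2) i).2 < 20 * (M + 2) := by
    intro i
    have := ((Vset (2 * M + 2)).equivFin.symm i).2
    unfold Vset at this
    rw [Finset.mem_filter, Finset.mem_product, Finset.mem_range, Finset.mem_range] at this
    unfold vpos
    constructor
    · have h := this.1.1
      calc _ < 10 * (2 * M + 2 + 2) := h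
        _ = 20 * (M + 2) := by ring
    · have h := this.1.2
      calc _ < 10 * (2 * M + 2 + 2) := h
        _ = 20 * (M + 2) := by ring
  have hM1 : (1 : ℝ) ≤ M := by exact_mod_cast hM
  refine ⟨n, ?_, ?_, place (n := n) h0 (vpos (2 * M + 2)), ?_, ?_, ?_⟩
  · rw [sq] at hlo; omega
  · nlinarith
  · exact place_injective h0 _ (vpos_injective _)
  · intro i
    have h1 := (hpos (fold h0 i)).1
    have h2 := (hpos (fold h0 i)).2
    unfold place
    refine ⟨by positivity, ?_, by positivity, ?_⟩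
    · have : (((vpos (2 * M + 2) (fold h0 i)).1 : ℕ) : ℝ) ≤ ((20 * (M + 2) : ℕ) : ℝ) := by
        exact_mod_cast h1.le
      push_cast at this ⊢
      linarith
    · have : (((vpos (2 * M + 2) (fold h0 i)).2 : ℕ) : ℝ) ≤ ((20 * (M + 2) : ℕ) : ℝ) := by
        exact_mod_cast h2.le
      push_cast at this ⊢
      linarith
  · intro ε C hε hsol
    have hc := core' M n hM le_rfl h0 ε hε C hsol
    have hlt : √(n : ℝ) ≤ 20 * (M + 2) := by
      rw [Real.sqrt_le_iff]
      refine ⟨by positivity, ?_⟩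
      have : (n : ℝ) ≤ ((400 * (M + 2) ^ 2 : ℕ) : ℝ) := by exact_mod_cast hcard
      push_cast at this
      nlinarith
    by_cases hM6 : M < 6
    · have h1 : (1 / 200 : ℝ) * √n ≤ 1 := by
        have : (M : ℝ) < 6 := by exact_mod_cast hM6
        linarith
      have h2 : (2 : ℝ) ^ ((1 / 200 : ℝ) * √n) ≤ 2 ^ (1 : ℝ) :=
        Real.rpow_le_rpow_of_exponent_le (by norm_num) h1
      rw [Real.rpow_one] at h2
      have : (0 : ℝ) ≤ C.length := by positivity
      linarith
    · push Not at hM6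
      obtain ⟨r', hr'⟩ : ∃ r', (M + 2) / 3 = r' + 1 := ⟨(M + 2) / 3 - 1, by omega⟩
      have h7 : 2 ^ (r' + 1) ≤ 2 * C.length := by
        have h8 : 2 ^ M = 2 ^ (r' + 1) * 2 ^ (M - (r' + 1)) := by
          rw [← pow_add]; congr 1; omega
        rw [hr', h8] at hc
        exact Nat.le_of_mul_le_mul_right hc (by positivity)
      rw [pow_succ] at h7
      have h9 : 2 ^ r' ≤ C.length := by omega
      have h10 : (1 / 200 : ℝ) * √n ≤ (r' : ℝ) := by
        have h11 : M ≤ 3 * (r' + 1) := by omega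
        have h12 : (M : ℝ) ≤ 3 * (r' + 1) := by exact_mod_cast h11
        have h13 : (6 : ℝ) ≤ M := by exact_mod_cast hM6
        linarith
      have h14 : (2 : ℝ) ^ ((1 / 200 : ℝ) * √n) ≤ 2 ^ (r' : ℝ) :=
        Real.rpow_le_rpow_of_exponent_le (by norm_num) h10
      rw [Real.rpow_natCast] at h14
      have h15 : (2 : ℝ) ^ r' ≤ C.length := by exact_mod_cast h9
      linarith

end Pool.Agent.Helper52.TC
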